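import Mathlib
import Pool.Agent.N46.CS.CEN
import Pool.Agent.N46.CS.NFR
import Pool.Agent.N46.CS.NFM
import Pool.Agent.N46.CS.NFB
import Pool.Agent.N46.CS.CVA
import Pool.Agent.N46.CS.CVM
import Pool.Agent.N46.CS.CNB
import Pool.Agent.N46.CS.AFF
import Pool.Agent.N46.CS.EXU
import Pool.Agent.N46.CS.FOP
import Pool.Agent.N46.RV.Asm
import Pool.Agent.N46.RV.RFI
import Pool.Agent.N46.RV.RCN
import Pool.Agent.N46.RV.NIC
import Pool.Agent.N46.RV.RPT
import Pool.Agent.N46.RV.RCL
import Pool.Agent.N46.RV.RIR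
import Pool.Agent.N46.RV.CMP
import Pool.Agent.N46.RV.NOI
import Pool.Agent.N46.RV.EXF
import Pool.Agent.N46.RV.ZOP
import Pool.Agent.N46.RV.LOG
import Pool.Agent.N46.RV.ABZ
import Pool.Agent.N46.RV.DFF
import Pool.Agent.N46.RV.MOR

/-!
# The list of candidates for the components of the center variety through `F(df)` is not complete

For every `d ≥ 3` the polynomial `f = x² + y^d + d y` of degree `d` has only non-degenerate critical
points with pairwise distinct critical values, and `F(df)` lies on an irreducible component of `M(d)`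
which is different from all `L(d_1, ..., d_s)` and is contained in none of the closures of the
families `A_i` (`0 ≤ i ≤ d`) and `B_1`. The component contains `F(df)` for all even `f`
(`f(-x, y) = f(x, y)`) of degree at most `d + 1`.

Idea: the forms invariant under `(x, y) ↦ (-x, y)` form an irreducible subset of `M(d)`; all the
listed candidates have a polynomial integrating factor of degree `≤ d + 1`, a closed condition, and the
reversible form `dy - 2 x (x² + y²) dx` has none.

Authors: helper46 (idea, statements, assembly), and for the parts the helpers named in the claim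
file. The Zariski topology, the forms and `HasCenterAt` are those of MP_9e47d4_ag.
-/

set_option autoImplicit false

namespace Pool.Agent.Results.MP_05b4bd_ag.FurtherComponent

open MvPolynomial Pool.Agent.Y215.CC Pool.Agent.N46.CS Pool.Agent.N46.RV
open scoped LinearAlgebra.Projectivization

/-- The closed set `M(d)`. -/
def centerVariety (d : ℕ) : Set (ℙ ℂ (Frm d)) := closure (centers d)

/-- `X` is an irreducible component of `M`: a maximal irreducible subset of `M`. -/
def IsComponent {d : ℕ} (M X : Set (ℙ ℂ (Frm d))) : Prop :=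
  Maximal (fun Z => IsIrreducible Z ∧ Z ⊆ M) X

/-- The critical points of `f`. -/
def Crit (f : MvPolynomial (Fin 2) ℂ) (p : Fin 2 → ℂ) : Prop :=
  eval p (pderiv 0 f) = 0 ∧ eval p (pderiv 1 f) = 0

/-- All critical points of `f` are non-degenerate, the critical values are pairwise distinct. -/
def Morse (f : MvPolynomial (Fin 2) ℂ) : Prop :=
  (∀ p, Crit f p → eval p (pderiv 0 (pderiv 0 f) * pderiv 1 (pderiv 1 f) -
    pderiv 0 (pderiv 1 f) * pderiv 1 (pderiv 0 f)) ≠ 0) ∧
  ∀ p q, Crit f p → Crit f q → p ≠ q → eval p f ≠ eval q f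

/-- The foliation `F(df)` is a point of `X`. -/
def DiffIn {d : ℕ} (X : Set (ℙ ℂ (Frm d))) (f : MvPolynomial (Fin 2) ℂ) : Prop :=
  ∃ (w : Frm d) (hw : w ≠ 0), fP w = pderiv 1 f ∧ fQ w = -pderiv 0 f ∧
    Projectivization.mk ℂ w hw ∈ X

/-- For every `d ≥ 3` there are a polynomial `f` of degree `d`, with non-degenerate critical points
and distinct critical values, and an irreducible component `X` of `M(d)` which contains `F(df)` and is
contained in none of the closures of the candidates `L(d_1, ..., d_s)`, `A_i`, `B_1`. The component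
`X` contains `F(dg)` for all nonconstant even `g` of degree at most `d + 1`. -/
theorem result (d : ℕ) (hd : 3 ≤ d) :
    ∃ (f : MvPolynomial (Fin 2) ℂ) (X : Set (ℙ ℂ (Frm d))), f.totalDegree = d ∧ Morse f ∧
      IsComponent (centerVariety d) X ∧ DiffIn X f ∧
      (∀ g : MvPolynomial (Fin 2) ℂ, 1 ≤ g.totalDegree → g.totalDegree ≤ d + 1 →
        bind₁ ![-MvPolynomial.X 0, MvPolynomial.X 1] g = g → DiffIn X g) ∧
      (∀ (s : ℕ) (dd : Fin s → ℕ), (∀ i, 1 ≤ dd i) → ∑ i, dd i = d + 1 →
        ¬ X ⊆ closure (Log d s dd)) ∧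
      (∀ i ≤ d, ¬ X ⊆ closure (AA d i)) ∧ ¬ X ⊆ closure (BB d) := by
  have hCEN := t_CEN t_NFR t_NFM t_NFB t_CVA t_CVM t_CNB
  have hRCN := t_RCN t_RFI hCEN t_AFF
  have hRPT := t_RPT hRCN t_EXU
  have hRCL := t_RCL t_NIC hRPT t_FOP
  obtain ⟨Y, hX, hYX, hL⟩ := Asm.comp hRCL t_RIR t_CMP t_NOI t_EXF t_ZOP d hd
  obtain ⟨h1, h2, h3, h4⟩ := t_MOR d hd
  refine ⟨ms d, Y, h2, ⟨fun p hp => h3 p hp.1 hp.2, fun p q hp hq hpq =>
    h4 p q hp.1 hp.2 hq.1 hq.2 hpq⟩, hX, ?_, ?_, ?_, ?_, ?_⟩
  · exact Asm.diffIn t_DFF hYX _ (by rw [h2]; omega) (by rw [h2]; omega) h1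
  · intro g hg1 hg2 hg
    exact Asm.diffIn t_DFF hYX g hg2 hg1 hg
  · intro s dd _ hs
    exact hL _ (t_LOG d s dd hs)
  · intro i hi
    exact hL _ ((t_ABZ d (by omega)).1 i hi)
  · exact hL _ (t_ABZ d (by omega)).2

end Pool.Agent.Results.MP_05b4bd_ag.FurtherComponent
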